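import Pool.Agent.Y981.QB.Stm

set_option autoImplicit false

/-!
# Plane geometry of a light path
-/

namespace Pool.Agent.Y475.QB

open H978R2.Hex Pool.Agent.Y981.QB Finset

theorem nsq (z : ℂ) : ‖z‖ ^ 2 = z.re ^ 2 + z.im ^ 2 := by
  rw [Complex.sq_norm, Complex.normSq_apply]
  ring

theorem lin_le (α β C : ℝ) (hC : 0 ≤ C) (h : α ^ 2 + β ^ 2 ≤ C ^ 2) (z : ℂ) :
    |α * z.re + β * z.im| ≤ C * ‖z‖ := by
  apply abs_le_of_sq_le_sq _ (by positivity)
  rw [mul_pow, nsq]
  have h1 : (α * z.re + β * z.im) ^ 2 ≤ (α ^ 2 + β ^ 2) * (z.re ^ 2 + z.im ^ 2) := by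
    nlinarith [sq_nonneg (α * z.im - β * z.re)]
  refine h1.trans (mul_le_mul_of_nonneg_right h (by positivity))

theorem s3 : Real.sqrt 3 ^ 2 = 3 := Real.sq_sqrt (by norm_num)

theorem s3p : 0 < Real.sqrt 3 := Real.sqrt_pos.2 (by norm_num)

/-- the distance of two vertices, squared -/
theorem dst_sq (p q : V) : dst q p ^ 2 =
    (3 * ((q.1 : ℝ) - p.1) ^ 2 + ((ht q : ℝ) - ht p) ^ 2) / 4 := by
  unfold dst
  rw [nsq]
  unfold pos
  simp only [Complex.sub_re, Complex.sub_im]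
  have := s3
  linear_combination (((q.1 : ℝ) - p.1) ^ 2 / 4) * this

theorem dst_adj {p q : V} (h : Adj p q) : dst q p ≤ 1 := by
  have h1 : 3 * (q.1 - p.1) ^ 2 + (ht q - ht p) ^ 2 = 4 := by
    have e : ((q.1 - p.1 = 1 ∨ q.1 - p.1 = -1) ∧ (ht q - ht p = 1 ∨ ht q - ht p = -1)) ∨
        (q.1 - p.1 = 0 ∧ (ht q - ht p = 2 ∨ ht q - ht p = -2)) := by
      unfold Adj at h
      unfold ht
      simp only [Prod.ext_iff, Prod.fst_sub, Prod.snd_sub, Int.even_iff] at h
      rcases h with h | h | h | h <;> omega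
    rcases e with ⟨e1 | e1, e2 | e2⟩ | ⟨e1, e2 | e2⟩ <;> rw [e1, e2] <;> norm_num
  have h2 := dst_sq p q
  have h3 : (3 * ((q.1 : ℝ) - p.1) ^ 2 + ((ht q : ℝ) - ht p) ^ 2) = 4 := by exact_mod_cast h1
  rw [h3] at h2
  have h4 : 0 ≤ dst q p := norm_nonneg _
  nlinarith

theorem row_lev (v w : V) : ∃ δ : ℝ, |δ| ≤ 1 / 3 ∧
    ((v.2 - w.2 : ℤ) : ℝ) = 2 / 3 * (pos v - pos w).im + δ ∧
    ((lev v - lev w : ℤ) : ℝ) =
      2 / 3 * (Real.sqrt 3 * (pos v - pos w).re - (pos v - pos w).im) - δ := by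
  have h1 := Int.emod_nonneg (v.1 + v.2) (by norm_num : (2 : ℤ) ≠ 0)
  have h2 := Int.emod_lt_of_pos (v.1 + v.2) (by norm_num : (0 : ℤ) < 2)
  have h3 := Int.emod_nonneg (w.1 + w.2) (by norm_num : (2 : ℤ) ≠ 0)
  have h4 := Int.emod_lt_of_pos (w.1 + w.2) (by norm_num : (0 : ℤ) < 2)
  refine ⟨((((v.1 + v.2) % 2 - (w.1 + w.2) % 2 : ℤ)) : ℝ) / 3, ?_, ?_, ?_⟩
  · have h5 : (v.1 + v.2) % 2 - (w.1 + w.2) % 2 ≤ 1 := by omega
    have h6 : -1 ≤ (v.1 + v.2) % 2 - (w.1 + w.2) % 2 := by omega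
    have h5' : ((((v.1 + v.2) % 2 - (w.1 + w.2) % 2 : ℤ)) : ℝ) ≤ 1 := by exact_mod_cast h5
    have h6' : (-1 : ℝ) ≤ ((((v.1 + v.2) % 2 - (w.1 + w.2) % 2 : ℤ)) : ℝ) := by exact_mod_cast h6
    rw [abs_le]
    constructor <;> linarith
  · unfold pos ht
    simp only [Complex.sub_im]
    push_cast
    ring
  · unfold pos ht lev
    simp only [Complex.sub_im, Complex.sub_re]
    push_cast
    have := s3
    linear_combination (-(((v.1 : ℝ) - w.1) / 3)) * this

theorem lev_le (v w : V) : |((lev v - lev w : ℤ) : ℝ)| ≤ 4 / 3 * dst v w + 1 / 3 := by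
  obtain ⟨δ, h1, -, h3⟩ := row_lev v w
  have h4 := lin_le (2 / 3 * Real.sqrt 3) (-2 / 3) (4 / 3) (by norm_num)
    (by rw [mul_pow, s3]; norm_num) (pos v - pos w)
  rw [h3]
  unfold dst
  have e : 2 / 3 * (Real.sqrt 3 * (pos v - pos w).re - (pos v - pos w).im) - δ =
    (2 / 3 * Real.sqrt 3 * (pos v - pos w).re + -2 / 3 * (pos v - pos w).im) + (-δ) := by ring
  rw [e]
  refine (abs_add_le _ _).trans (add_le_add h4 ?_)
  rwa [abs_neg]

theorem row_le (v w : V) : |((v.2 - w.2 : ℤ) : ℝ)| ≤ 2 / 3 * dst v w + 1 / 3 := by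
  obtain ⟨δ, h1, h2, -⟩ := row_lev v w
  have h4 := lin_le 0 (2 / 3) (2 / 3) (by norm_num) (by norm_num) (pos v - pos w)
  rw [h2]
  unfold dst
  rw [zero_mul, zero_add] at h4
  exact (abs_add_le _ _).trans (add_le_add h4 h1)

/-- the excess of the steps of a block is small -/
theorem block_est (Wp a b : ℝ) (z : ℕ → ℂ) (s : ℕ) (hab : a ^ 2 + b ^ 2 = 1) (hWp : 0 ≤ Wp)
    (hstep : ∀ j < LL, ‖z (s + j + 1) - z (s + j)‖ ≤ Wp)
    (hsum : ∑ j ∈ range LL, (Wp - (a * (z (s + j + 1) - z (s + j)).re +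
      b * (z (s + j + 1) - z (s + j)).im)) ≤ Wp / 204800) :
    (∀ q < LL, ‖z (s + q + 1) - z (s + q) - (Wp : ℂ) * ⟨a, b⟩‖ ≤ Wp / 320) ∧
    ∀ q ≤ LL, ‖z (s + q) - z s - ((q : ℝ) * Wp : ℝ) * ⟨a, b⟩‖ ≤ Wp / 4 := by
  set e : ℕ → ℝ := fun j => Wp - (a * (z (s + j + 1) - z (s + j)).re +
      b * (z (s + j + 1) - z (s + j)).im) with he
  have he0 : ∀ j < LL, 0 ≤ e j := by
    intro j hj
    have h1 := lin_le a b 1 (by norm_num) (by rw [hab]; norm_num) (z (s + j + 1) - z (s + j))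
    have h2 := hstep j hj
    have h3 := (le_abs_self _).trans h1
    simp only [he]
    linarith
  set d : ℕ → ℂ := fun j => z (s + j + 1) - z (s + j) - (Wp : ℂ) * ⟨a, b⟩ with hd
  have hd2 : ∀ j < LL, ‖d j‖ ^ 2 ≤ 2 * Wp * e j := by
    intro j hj
    have h2 := hstep j hj
    have h3 : ‖z (s + j + 1) - z (s + j)‖ ^ 2 ≤ Wp ^ 2 := pow_le_pow_left₀ (norm_nonneg _) h2 2
    rw [nsq] at h3 ⊢
    simp only [hd, he, Complex.sub_re, Complex.sub_im, Complex.mul_re, Complex.mul_im,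
      Complex.ofReal_re, Complex.ofReal_im, zero_mul, sub_zero, add_zero] at h3 ⊢
    nlinarith [hab]
  have hle : ∀ j < LL, e j ≤ Wp / 204800 := by
    intro j hj
    refine le_trans ?_ hsum
    exact single_le_sum (f := e) (fun i hi => he0 i (mem_range.1 hi)) (mem_range.2 hj)
  constructor
  · intro q hq
    apply le_of_sq_le_sq _ (by positivity)
    refine (hd2 q hq).trans ?_
    have := hle q hq
    nlinarith
  · intro q hq
    have h1 : z (s + q) - z s - ((q : ℝ) * Wp : ℝ) * ⟨a, b⟩ = ∑ j ∈ range q, d j := by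
      clear hq
      induction q with
      | zero => simp
      | succ q ih =>
        rw [sum_range_succ, ← ih]
        simp only [hd]
        push_cast
        rw [← add_assoc]
        ring
    rw [h1]
    refine (norm_sum_le _ _).trans ?_
    apply le_of_sq_le_sq _ (by positivity)
    refine (sq_sum_le_card_mul_sum_sq).trans ?_
    rw [card_range]
    have h2 : ∑ j ∈ range q, ‖d j‖ ^ 2 ≤ 2 * Wp * (Wp / 204800) := by
      calc ∑ j ∈ range q, ‖d j‖ ^ 2 ≤ ∑ j ∈ range LL, ‖d j‖ ^ 2 :=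
            sum_le_sum_of_subset_of_nonneg (range_subset_range.2 hq) fun i _ _ => by positivity
        _ ≤ ∑ j ∈ range LL, 2 * Wp * e j := sum_le_sum fun j hj => hd2 j (mem_range.1 hj)
        _ = 2 * Wp * ∑ j ∈ range LL, e j := by rw [mul_sum]
        _ ≤ 2 * Wp * (Wp / 204800) := mul_le_mul_of_nonneg_left hsum (by positivity)
    have h3 : (q : ℝ) ≤ 6400 := by
      have : q ≤ 6400 := hq
      exact_mod_cast this
    have h4 : 0 ≤ ∑ j ∈ range q, ‖d j‖ ^ 2 := sum_nonneg fun i _ => by positivity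
    calc (q : ℝ) * ∑ j ∈ range q, ‖d j‖ ^ 2 ≤ 6400 * (2 * Wp * (Wp / 204800)) := by
          apply mul_le_mul h3 h2 h4 (by norm_num)
      _ ≤ (Wp / 4) ^ 2 := by ring_nf; nlinarith

theorem sum_blocks (e : ℕ → ℝ) (L n : ℕ) :
    ∑ b ∈ range n, ∑ q ∈ range L, e (L * b + q) = ∑ j ∈ range (L * n), e j := by
  induction n with
  | zero => simp
  | succ n ih =>
    rw [sum_range_succ, ih, Nat.mul_succ, sum_range_add]


/-- number of the good blocks -/
theorem card_good (e : ℕ → ℝ) (k : ℕ) (T S : ℝ) (hT : 0 < T) (he : ∀ j < k, 0 ≤ e j)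
    (hS : ∑ j ∈ range k, e j ≤ S) :
    (k / LL : ℝ) - 1 - S / T ≤ (((range (k / LL)).filter
      (fun b => ∑ q ∈ range LL, e (LL * b + q) ≤ T)).card : ℝ) := by
  classical
  set g : ℕ → ℝ := fun b => ∑ q ∈ range LL, e (LL * b + q) with hg
  have hk : LL * (k / LL) ≤ k := Nat.mul_div_le k LL
  have h1 : ∑ b ∈ range (k / LL), g b ≤ S := by
    rw [hg, sum_blocks]
    refine le_trans ?_ hS
    exact sum_le_sum_of_subset_of_nonneg (range_subset_range.2 hk)
      fun i hi _ => he i (mem_range.1 hi)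
  have hg0 : ∀ b ∈ range (k / LL), 0 ≤ g b := by
    intro b hb
    apply sum_nonneg
    intro q hq
    apply he
    rw [mem_range] at hb hq
    have h2 : LL * (b + 1) ≤ LL * (k / LL) := Nat.mul_le_mul_left _ hb
    rw [Nat.mul_succ] at h2
    omega
  have h2 := card_filter_add_card_filter_not (s := range (k / LL)) (fun b => g b ≤ T)
  rw [card_range] at h2
  have h3 : (((range (k / LL)).filter (fun b => ¬ g b ≤ T)).card : ℝ) * T ≤ S := by
    calc (((range (k / LL)).filter (fun b => ¬ g b ≤ T)).card : ℝ) * T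
        = ∑ b ∈ (range (k / LL)).filter (fun b => ¬ g b ≤ T), T := by
          rw [sum_const, nsmul_eq_mul]
      _ ≤ ∑ b ∈ (range (k / LL)).filter (fun b => ¬ g b ≤ T), g b :=
          sum_le_sum fun b hb => (not_le.1 (mem_filter.1 hb).2).le
      _ ≤ ∑ b ∈ range (k / LL), g b :=
          sum_le_sum_of_subset_of_nonneg (filter_subset _ _) fun i hi _ => hg0 i hi
      _ ≤ S := h1
  have h4 : (((range (k / LL)).filter (fun b => ¬ g b ≤ T)).card : ℝ) ≤ S / T := by
    rw [le_div_iff₀ hT]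
    exact h3
  have h5 : (k : ℝ) / LL ≤ ((k / LL : ℕ) : ℝ) + 1 := by
    have hL : (0 : ℝ) < (LL : ℝ) := by norm_num [LL]
    rw [div_le_iff₀ hL]
    have h6 : k ≤ (k / LL + 1) * LL := by
      have := Nat.div_add_mod k LL
      have h7 := Nat.mod_lt k (show 0 < LL by norm_num [LL])
      nlinarith
    exact_mod_cast h6
  have h6 : (((range (k / LL)).filter (fun b => g b ≤ T)).card : ℝ) +
      (((range (k / LL)).filter (fun b => ¬ g b ≤ T)).card : ℝ) = ((k / LL : ℕ) : ℝ) := by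
    exact_mod_cast h2
  linarith

theorem g1 : S_G1 := by
  classical
  intro W lam m γ hW hlam hadj ⟨hfar, k, t, hk, ht0, htm, htk, hpc, hpl⟩ hsec
  have hWr : (10 : ℝ) ^ 13 ≤ W := by exact_mod_cast hW
  have hlr : (10 : ℝ) ^ 13 ≤ lam := by exact_mod_cast hlam
  have hW0 : (0 : ℝ) < W := lt_of_lt_of_le (by positivity) hWr
  have hl0 : (0 : ℝ) < lam := lt_of_lt_of_le (by positivity) hlr
  -- monotone times
  have tmono : ∀ j' j : ℕ, j ≤ j' → j' ≤ k → t j ≤ t j' := by
    intro j'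
    induction j' with
    | zero => intro j hj _; rw [Nat.le_zero.1 hj]
    | succ j' ih =>
      intro j hj hk'
      rcases Nat.lt_or_ge j (j' + 1) with h | h
      · exact (ih j (by omega) (by omega)).trans (htm j' (by omega)).le
      · have : j = j' + 1 := by omega
        rw [this]
  have hdist : ∀ j ≤ k, ∀ i, t j ≤ i → i ≤ m → (j < k → i ≤ t (j + 1)) →
      dst (γ i) (γ (t j)) ≤ W + 1 := by
    intro j hj i h1 h2 h3
    rcases Nat.lt_or_ge j k with hjk | hjk
    · rcases Nat.lt_or_ge i (t (j + 1)) with h4 | h4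
      · have := hpc j hjk i h1 h4
        linarith
      · have h5 : i = t (j + 1) := by have := h3 hjk; omega
        have h6 := htm j hjk
        have h7 : 1 ≤ i := by omega
        have h8 := hadj (i - 1) (by omega)
        rw [Nat.sub_add_cancel h7] at h8
        have h9 := hpc j hjk (i - 1) (by omega) (by omega)
        have h10 := dst_adj h8
        unfold dst at *
        calc ‖pos (γ i) - pos (γ (t j))‖
            = ‖(pos (γ i) - pos (γ (i - 1))) + (pos (γ (i - 1)) - pos (γ (t j)))‖ := by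
              congr 1; ring
          _ ≤ _ := norm_add_le _ _
          _ ≤ W + 1 := by linarith
    · have h4 : j = k := by omega
      subst h4
      have := hpl i h1 h2
      linarith
  set z : ℕ → ℂ := fun j => pos (γ (t j)) with hz
  have htle : ∀ j ≤ k, t j ≤ m := fun j hj => (tmono k j hj le_rfl).trans htk
  have hstep : ∀ j < k, ‖z (j + 1) - z j‖ ≤ W + 1 := fun j hj =>
    hdist j hj.le (t (j + 1)) (htm j hj).le (htle (j + 1) hj) (fun _ => le_rfl)
  -- direction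
  set c : ℂ := pos (γ m) - pos (γ 0) with hc
  have hcn : (lam : ℝ) * W ≤ ‖c‖ := by
    have : dst (γ 0) (γ m) = ‖c‖ := by
      unfold dst
      rw [hc, norm_sub_rev]
    rw [← this]
    exact hfar
  have hcp : 0 < ‖c‖ := lt_of_lt_of_le (by positivity) hcn
  obtain ⟨a, b, hab, hcab, hb0, hsab⟩ : ∃ a b : ℝ, a ^ 2 + b ^ 2 = 1 ∧
      a * c.re + b * c.im = ‖c‖ ∧ b ≤ 0 ∧ Real.sqrt 3 * (-b) ≤ a := by
    refine ⟨c.re / ‖c‖, c.im / ‖c‖, ?_, ?_, ?_, ?_⟩
    · rw [div_pow, div_pow, ← add_div, ← nsq, div_self (by positivity)]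
    · rw [div_mul_eq_mul_div, div_mul_eq_mul_div, ← add_div, ← sq, ← sq, ← nsq, sq,
        mul_div_assoc, div_self hcp.ne', mul_one]
    · exact div_nonpos_of_nonpos_of_nonneg hsec.1 hcp.le
    · rw [← neg_div, ← mul_div_assoc]
      exact div_le_div_of_nonneg_right hsec.2 hcp.le
  have hdot : ∀ w : ℂ, a * w.re + b * w.im ≤ ‖w‖ := by
    intro w
    have h1 := lin_le a b 1 (by norm_num) (by rw [hab]; norm_num) w
    rw [one_mul] at h1
    exact (le_abs_self _).trans h1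
  -- the excess
  set e : ℕ → ℝ := fun j => (W + 1) - (a * (z (j + 1) - z j).re + b * (z (j + 1) - z j).im)
    with he
  have he0 : ∀ j < k, 0 ≤ e j := by
    intro j hj
    have h1 := hdot (z (j + 1) - z j)
    have h2 := hstep j hj
    simp only [he]
    linarith
  have hesum : ∑ j ∈ range k, e j = k * (W + 1) -
      (a * (z k - z 0).re + b * (z k - z 0).im) := by
    have h1 : ∀ n : ℕ, ∑ j ∈ range n, e j = n * (W + 1) -
        (a * (z n - z 0).re + b * (z n - z 0).im) := by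
      intro n
      induction n with
      | zero => simp
      | succ n ih =>
        rw [sum_range_succ, ih]
        simp only [he, Complex.sub_re, Complex.sub_im]
        push_cast
        ring
    exact h1 k
  have hck : ‖c‖ ≤ W + (a * (z k - z 0).re + b * (z k - z 0).im) := by
    have h1 := hdot (pos (γ m) - z k)
    have h2 : ‖pos (γ m) - z k‖ ≤ W := (hpl m htk le_rfl).le
    have h3 : z 0 = pos (γ 0) := by simp only [hz, ht0]
    rw [← hcab, hc, h3]
    simp only [Complex.sub_re, Complex.sub_im] at h1 ⊢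
    linarith
  have hkW : (lam : ℝ) * W ≤ k * (W + 1) + W := by
    have h1 := sum_nonneg (fun j hj => he0 j (mem_range.1 hj))
    rw [hesum] at h1
    linarith
  have hS : ∑ j ∈ range k, e j ≤ 2 / 10 ^ 12 * (lam * W) := by
    rw [hesum]
    have h1 : (k : ℝ) * (W + 1) ≤ (1 + 1 / 10 ^ 12) * lam * (W + 1) :=
      mul_le_mul_of_nonneg_right hk.le (by positivity)
    have h2 : (lam : ℝ) ≤ lam * W / 10 ^ 13 := by
      rw [le_div_iff₀ (by positivity)]
      exact mul_le_mul_of_nonneg_left hWr hl0.le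
    have h3 : (W : ℝ) ≤ lam * W / 10 ^ 13 := by
      rw [le_div_iff₀ (by positivity)]
      have := mul_le_mul_of_nonneg_right hlr hW0.le
      linarith
    have h4 : 0 < (lam : ℝ) * W := by positivity
    have h5 : (k : ℝ) * (W + 1) - (a * (z k - z 0).re + b * (z k - z 0).im) ≤
        (1 + 1 / 10 ^ 12) * lam * (W + 1) - lam * W + W := by linarith
    refine h5.trans ?_
    have h6 : (1 + 1 / 10 ^ 12) * (lam : ℝ) * (W + 1) - lam * W + W =
        1 / 10 ^ 12 * (lam * W) + (1 + 1 / 10 ^ 12) * lam + W := by ring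
    rw [h6]
    have h7 : (1 + 1 / 10 ^ 12) * (lam : ℝ) ≤ (1 + 1 / 10 ^ 12) * (lam * W / 10 ^ 13) :=
      mul_le_mul_of_nonneg_left h2 (by positivity)
    have h8 : 1 / 10 ^ 12 * ((lam : ℝ) * W) + (1 + 1 / 10 ^ 12) * (lam * W / 10 ^ 13) +
        lam * W / 10 ^ 13 ≤ 2 / 10 ^ 12 * (lam * W) := by
      have h9 : 1 / 10 ^ 12 * ((lam : ℝ) * W) + (1 + 1 / 10 ^ 12) * (lam * W / 10 ^ 13) +
        lam * W / 10 ^ 13 = (1 / 10 ^ 12 + (1 + 1 / 10 ^ 12) / 10 ^ 13 + 1 / 10 ^ 13) *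
          ((lam : ℝ) * W) := by ring
      rw [h9]
      apply mul_le_mul_of_nonneg_right _ h4.le
      norm_num
    linarith
  have hklo : (1 - 1 / 10 ^ 12) * (lam : ℝ) ≤ k := by
    by_contra hcon
    rw [not_le] at hcon
    have h1 : (k : ℝ) * (W + 1) ≤ (1 - 1 / 10 ^ 12) * lam * (W + 1) :=
      mul_le_mul_of_nonneg_right hcon.le (by positivity)
    have h2 : (lam : ℝ) ≤ lam * W / 10 ^ 13 := by
      rw [le_div_iff₀ (by positivity)]
      exact mul_le_mul_of_nonneg_left hWr hl0.le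
    have h3 : (W : ℝ) ≤ lam * W / 10 ^ 13 := by
      rw [le_div_iff₀ (by positivity)]
      have := mul_le_mul_of_nonneg_right hlr hW0.le
      linarith
    have h4 : 0 < (lam : ℝ) * W := by positivity
    have h5 : (1 - 1 / 10 ^ 12) * (lam : ℝ) * (W + 1) + W =
        (1 - 1 / 10 ^ 12) * (lam * W) + (1 - 1 / 10 ^ 12) * lam + W := by ring
    have h6 : (1 - 1 / 10 ^ 12) * (lam : ℝ) ≤ lam := by
      apply mul_le_of_le_one_left hl0.le
      norm_num
    have h7 : (lam : ℝ) * W ≤ (1 - 1 / 10 ^ 12) * (lam * W) + 2 * (lam * W / 10 ^ 13) := by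
      linarith
    have h8 : (1 - 1 / 10 ^ 12) * ((lam : ℝ) * W) + 2 * (lam * W / 10 ^ 13) =
        (1 - 1 / 10 ^ 12 + 2 / 10 ^ 13) * ((lam : ℝ) * W) := by ring
    rw [h8] at h7
    have h9 : (1 - 1 / 10 ^ 12 + 2 / 10 ^ 13) * ((lam : ℝ) * W) < 1 * (lam * W) :=
      mul_lt_mul_of_pos_right (by norm_num) h4
    linarith
  -- the slope
  have s3' := s3
  have s3p' := s3p
  set ρ : ℝ := Real.sqrt 3 with hρ
  have hΛ : 1 ≤ (ρ * a - b) / ρ := by
    rw [le_div_iff₀ s3p', one_mul]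
    have ha0 : 0 ≤ a := le_trans (mul_nonneg s3p'.le (by linarith)) hsab
    have h1 : ρ ^ 2 ≤ (ρ * a - b) ^ 2 := by
      rw [s3']
      have h2 : (ρ * a - b) ^ 2 = 3 * a ^ 2 + 2 * (ρ * (-b)) * a + b ^ 2 := by
        rw [← s3']; ring
      have h3 : (ρ * (-b)) * (ρ * (-b)) ≤ (ρ * (-b)) * a :=
        mul_le_mul_of_nonneg_left hsab (mul_nonneg s3p'.le (by linarith))
      have h4 : (ρ * (-b)) * (ρ * (-b)) = 3 * b ^ 2 := by rw [← s3']; ring
      rw [h2]
      nlinarith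
    have h5 : 0 ≤ ρ * a - b := by
      have := mul_nonneg s3p'.le ha0
      linarith
    exact le_of_sq_le_sq h1 h5
  have hΛp : 0 < ρ * a - b := by
    have h1 : ρ ≤ ρ * a - b := by
      rw [le_div_iff₀ s3p', one_mul] at hΛ
      exact hΛ
    linarith
  have hρa : ρ ≤ ρ * a - b := by
    rw [le_div_iff₀ s3p', one_mul] at hΛ
    exact hΛ
  have hρlo : 173 / 100 ≤ ρ := by
    apply Real.le_sqrt_of_sq_le
    norm_num
  set κ : ℝ := (-b) / (ρ * a - b) with hκ
  have hκ0 : 0 ≤ κ := div_nonneg (by linarith) hΛp.le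
  have hκ1 : κ ≤ 1 / 4 := by
    rw [hκ, div_le_iff₀ hΛp]
    have h1 : ρ * (ρ * (-b)) ≤ ρ * a := mul_le_mul_of_nonneg_left hsab s3p'.le
    have h2 : ρ * (ρ * (-b)) = 3 * (-b) := by rw [← s3']; ring
    linarith
  have hκu : 2 / 3 * b + κ * (2 / 3 * (ρ * a - b)) = 0 := by
    have h1 : κ * (ρ * a - b) = -b := div_mul_cancel₀ _ hΛp.ne'
    linear_combination (2 / 3) * h1
  -- the good blocks
  set T : ℝ := (W + 1) / 204800 with hT
  have hTp : 0 < T := by rw [hT]; positivity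
  have hcard := card_good e k T (2 / 10 ^ 12 * (lam * W)) hTp he0 hS
  refine ⟨κ, k, t, (range (k / LL)).filter (fun b => ∑ q ∈ range LL, e (LL * b + q) ≤ T),
    hκ0, hκ1, hklo, hk.le, ht0, htm, htk, ?_, ?_, ?_⟩
  · intro j hj i h1 h2 h3
    have h4 := hdist j hj i h1 h2 h3
    constructor
    · have h5 := lev_le (γ i) (γ (t j))
      have h6 : |((lev (γ i) - lev (γ (t j)) : ℤ) : ℝ)| ≤ 2 * W := by linarith
      exact_mod_cast h6
    · have h5 := row_le (γ i) (γ (t j))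
      have h6 : |(((γ i).2 - (γ (t j)).2 : ℤ) : ℝ)| ≤ W := by linarith
      exact_mod_cast h6
  · refine le_trans ?_ hcard
    have h1 : 2 / 10 ^ 12 * ((lam : ℝ) * W) / T ≤ lam / 10 ^ 6 := by
      rw [div_le_iff₀ hTp, hT]
      have h2 : 0 ≤ (lam : ℝ) * W := by positivity
      have h3 : (lam : ℝ) / 10 ^ 6 * ((W + 1) / 204800) =
          (1 / (10 ^ 6 * 204800)) * (lam * W) + (lam : ℝ) / (10 ^ 6 * 204800) := by ring
      rw [h3]
      have h4 : 2 / 10 ^ 12 * ((lam : ℝ) * W) ≤ (1 / (10 ^ 6 * 204800)) * (lam * W) :=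
        mul_le_mul_of_nonneg_right (by norm_num) h2
      have h5 : 0 ≤ (lam : ℝ) / (10 ^ 6 * 204800) := by positivity
      linarith
    linarith
  · intro β hβ
    rw [mem_filter, mem_range] at hβ
    obtain ⟨hβ1, hβ2⟩ := hβ
    have hβk : LL * (β + 1) ≤ k := (Nat.mul_le_mul_left _ hβ1).trans (Nat.mul_div_le k LL)
    have hβk' : LL * β + LL ≤ k := by rw [Nat.mul_succ] at hβk; exact hβk
    obtain ⟨hs1, hs2⟩ := block_est (W + 1) a b z (LL * β) hab (by positivity)
      (fun j hj => hstep (LL * β + j) (by omega)) hβ2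
    refine ⟨hβk, ?_, ?_, ?_⟩
    · intro q hq
      have h1 := hs1 q hq
      obtain ⟨δ, hδ, -, h2⟩ := row_lev (γ (t (LL * β + q + 1))) (γ (t (LL * β + q)))
      set D : ℂ := pos (γ (t (LL * β + q + 1))) - pos (γ (t (LL * β + q))) with hD
      have h3 := lin_le (2 / 3 * ρ) (-2 / 3) (4 / 3) (by norm_num)
        (by rw [mul_pow, s3']; norm_num) (D - ((W + 1 : ℝ) : ℂ) * ⟨a, b⟩)
      have h4 : ‖D - ((W + 1 : ℝ) : ℂ) * ⟨a, b⟩‖ ≤ (W + 1) / 320 := h1
      have h5 := neg_le_of_abs_le h3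
      simp only [Complex.sub_re, Complex.sub_im, Complex.mul_re, Complex.mul_im,
        Complex.ofReal_re, Complex.ofReal_im, zero_mul, sub_zero, add_zero] at h5
      have h6 : (0 : ℝ) ≤ ((lev (γ (t (LL * β + q + 1))) - lev (γ (t (LL * β + q))) : ℤ) : ℝ) := by
        rw [h2]
        have h7 := (abs_le.1 hδ).2
        have h8 : (W + 1 : ℝ) * (173 / 100) ≤ (W + 1) * (ρ * a - b) :=
          mul_le_mul_of_nonneg_left (hρlo.trans hρa) (by positivity)
        linarith
      have h7 : 0 ≤ lev (γ (t (LL * β + q + 1))) - lev (γ (t (LL * β + q))) := by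
        exact_mod_cast h6
      linarith
    · have h1 := hs2 LL le_rfl
      obtain ⟨δ, hδ, -, h2⟩ := row_lev (γ (t (LL * β + LL))) (γ (t (LL * β)))
      set D : ℂ := pos (γ (t (LL * β + LL))) - pos (γ (t (LL * β))) with hD
      have h3 := lin_le (2 / 3 * ρ) (-2 / 3) (4 / 3) (by norm_num)
        (by rw [mul_pow, s3']; norm_num) (D - (((LL : ℕ) : ℝ) * (W + 1) : ℝ) * ⟨a, b⟩)
      have h4 : ‖D - (((LL : ℕ) : ℝ) * (W + 1) : ℝ) * ⟨a, b⟩‖ ≤ (W + 1) / 4 := h1
      have h5 := neg_le_of_abs_le h3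
      have hLL : ((LL : ℕ) : ℝ) = 6400 := by norm_num [LL]
      rw [hLL] at h5 h4
      simp only [Complex.sub_re, Complex.sub_im, Complex.mul_re, Complex.mul_im,
        Complex.ofReal_re, Complex.ofReal_im, zero_mul, sub_zero, add_zero] at h5
      have h6 : ((34 * 200 + 9) * W : ℝ) ≤
          ((lev (γ (t (LL * β + LL))) - lev (γ (t (LL * β))) : ℤ) : ℝ) := by
        rw [h2]
        have h7 := (abs_le.1 hδ).2
        have h8 : (W + 1 : ℝ) * (173 / 100) ≤ (W + 1) * (ρ * a - b) :=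
          mul_le_mul_of_nonneg_left (hρlo.trans hρa) (by positivity)
        linarith
      have h7 : (34 * 200 + 9) * (W : ℤ) ≤
          lev (γ (t (LL * β + LL))) - lev (γ (t (LL * β))) := by
        exact_mod_cast h6
      have h8 : LL * (β + 1) = LL * β + LL := Nat.mul_succ _ _
      rw [h8]
      have h9 : ((NS : ℕ) : ℤ) = 200 := by norm_num [NS]
      rw [h9]
      linarith
    · intro i hi1 hi2
      have h8 : LL * (β + 1) = LL * β + LL := Nat.mul_succ _ _
      rw [h8] at hi2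
      -- the piece of `i`
      obtain ⟨q, hq, hq1, hq2⟩ : ∃ q ≤ LL, t (LL * β + q) ≤ i ∧
          (q < LL → i < t (LL * β + q + 1)) := by
        refine ⟨Nat.findGreatest (fun q => t (LL * β + q) ≤ i) LL,
          Nat.findGreatest_le _, ?_, ?_⟩
        · exact Nat.findGreatest_spec (P := fun q => t (LL * β + q) ≤ i) (m := 0)
            (Nat.zero_le _) (by simpa using hi1)
        · intro hlt
          have := Nat.findGreatest_is_greatest (P := fun q => t (LL * β + q) ≤ i) (n := LL)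
            (Nat.lt_succ_self _) hlt
          rw [not_le] at this
          exact this
      have hqk : LL * β + q ≤ k := by omega
      have him : i ≤ m := hi2.trans (htle _ hβk')
      have h9 : dst (γ i) (γ (t (LL * β + q))) ≤ W + 1 := by
        rcases Nat.lt_or_ge q LL with h10 | h10
        · exact hdist _ hqk i hq1 him (fun _ => (hq2 h10).le)
        · have h11 : q = LL := by omega
          have h12 : i = t (LL * β + q) := by rw [h11] at hq1 ⊢; omega
          rw [← h12]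
          unfold dst
          rw [sub_self, norm_zero]
          positivity
      have h10 := hs2 q hq
      obtain ⟨δ, hδ, h11, h12⟩ := row_lev (γ i) (γ (t (LL * β)))
      rw [h11, h12]
      set D : ℂ := pos (γ i) - pos (γ (t (LL * β))) with hD
      set ζ : ℂ := D - ((q : ℝ) * (W + 1) : ℝ) * ⟨a, b⟩ with hζ
      have h13 : ‖ζ‖ ≤ (W + 1) + (W + 1) / 4 := by
        have h14 : ζ = (pos (γ i) - pos (γ (t (LL * β + q)))) +
            (z (LL * β + q) - z (LL * β) - ((q : ℝ) * (W + 1) : ℝ) * ⟨a, b⟩) := by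
          simp only [hζ, hD, hz]
          ring
        rw [h14]
        exact (norm_add_le _ _).trans (add_le_add h9 h10)
      have h15 := lin_le (κ * (2 / 3 * ρ)) (2 / 3 * (1 - κ)) (2 / 3) (by norm_num)
        (by
          have : (κ * (2 / 3 * ρ)) ^ 2 + (2 / 3 * (1 - κ)) ^ 2 =
              4 / 9 * (κ ^ 2 * ρ ^ 2 + (1 - κ) ^ 2) := by ring
          have h20 : 0 ≤ κ * (1 - 2 * κ) := mul_nonneg hκ0 (by linarith)
          have h21 : 4 / 9 * (κ ^ 2 * 3 + (1 - κ) ^ 2) = (2 / 3) ^ 2 - 8 / 9 * (κ * (1 - 2 * κ)) := by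
            ring
          rw [this, s3', h21]
          linarith) ζ
      have h16 : 2 / 3 * D.im + δ + κ * (2 / 3 * (ρ * D.re - D.im) - δ) =
          (κ * (2 / 3 * ρ) * ζ.re + 2 / 3 * (1 - κ) * ζ.im) + (1 - κ) * δ := by
        simp only [hζ, Complex.sub_re, Complex.sub_im, Complex.mul_re, Complex.mul_im,
          Complex.ofReal_re, Complex.ofReal_im, zero_mul, sub_zero, add_zero]
        linear_combination ((q : ℝ) * (W + 1)) * hκu
      rw [h16]
      refine (abs_add_le _ _).trans ?_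
      have h17 : |(1 - κ) * δ| ≤ 1 / 3 := by
        rw [abs_mul, abs_of_nonneg (by linarith : 0 ≤ 1 - κ)]
        have h22 := mul_le_mul (by linarith : 1 - κ ≤ 1) hδ (abs_nonneg δ) zero_le_one
        linarith
      linarith

end Pool.Agent.Y475.QB
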